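import Pool.Agent.H862Z.Rich.TopA

/-! The top step. -/

set_option autoImplicit false
set_option linter.unusedSectionVars false

namespace Pool.Agent.H259Z.Rich

namespace TopS

variable {Q : Type} [Group Q]

theorem smul_mem_of_cast {p : ℕ} [NeZero p] (J : Submodule (ZG Q) (ZG Q)) (hp : (p : ZG Q) ∈ J)
    {n : ℤ} (hn : (n : ZMod p) = 0) (f : ZG Q) : n • f ∈ J := by
  obtain ⟨m, rfl⟩ := (ZMod.intCast_zmod_eq_zero_iff_dvd n p).1 hn
  have : ((p : ℤ) * m) • f = (m • f) • (p : ZG Q) := by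
    rw [smul_eq_mul, mul_comm, mul_smul, smul_mul_assoc, natCast_zsmul, nsmul_eq_mul,
      (Nat.cast_commute p f).eq]
  rw [this]
  exact J.smul_mem _ hp

/-- The left ideal. -/
theorem exists_J {p : ℕ} [Fact p.Prime] (θ : Q →* ZMod p) {k : ℕ} (H : Subgroup Q)
    (hH : GenLe k H) (c : Q) (hc : θ c = 1) (l : ℕ) :
    ∃ gJ : Option (Option (Fin k)) → ZG Q,
      (p : ZG Q) ∈ Submodule.span (ZG Q) (Set.range gJ) ∧
      (∑ j ∈ Finset.range l, oo (c ^ j)) ∈ Submodule.span (ZG Q) (Set.range gJ) ∧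
      (∀ h ∈ H, ∀ m : ℤ, (m : ZMod p) = θ h → ∀ q,
        oo (q * h) - m • oo q ∈ Submodule.span (ZG Q) (Set.range gJ)) ∧
      (∀ χ : Q → ℤ, (∀ q, ∀ h ∈ H, χ (q * h) = χ q) →
        (∀ q, ∑ j ∈ Finset.range l, χ (q * c ^ j) = 0) →
        ∀ f ∈ Submodule.span (ZG Q) (Set.range gJ), E (fun q => θ q * (χ q : ZMod p)) f = 0) := by
  obtain ⟨hg, rfl⟩ := hH
  have hlift : ∀ x : ZMod p, ∃ m : ℤ, (m : ZMod p) = x := fun x => ZMod.intCast_surjective x
  choose mm hmm using hlift
  let gJ : Option (Option (Fin k)) → ZG Q := fun o =>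
    match o with
    | none => (p : ZG Q)
    | some none => ∑ j ∈ Finset.range l, oo (c ^ j)
    | some (some a) => oo (hg a) - mm (θ (hg a)) • 1
  have hp : (p : ZG Q) ∈ Submodule.span (ZG Q) (Set.range gJ) :=
    Submodule.subset_span ⟨none, rfl⟩
  refine ⟨gJ, hp, Submodule.subset_span ⟨some none, rfl⟩, ?_, ?_⟩
  · set J := Submodule.span (ZG Q) (Set.range gJ) with hJ
    intro h hh
    induction hh using Subgroup.closure_induction with
    | mem y hy =>
      obtain ⟨a, rfl⟩ := hy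
      intro m hm q
      have h1 : oo (hg a) - mm (θ (hg a)) • 1 ∈ J := Submodule.subset_span ⟨some (some a), rfl⟩
      have h2 := J.smul_mem (oo q) h1
      have h3 := smul_mem_of_cast J hp (n := mm (θ (hg a)) - m) (by
        rw [Int.cast_sub, hmm, hm, sub_self]) (oo q)
      have := J.add_mem h2 h3
      rw [smul_eq_mul, mul_sub, ← map_mul, mul_smul_comm, mul_one, sub_smul] at this
      convert this using 1
      abel
    | one =>
      intro m hm q
      have h3 := smul_mem_of_cast J hp (n := 1 - m) (by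
        rw [Int.cast_sub, hm, map_one, Int.cast_one, sub_self]) (oo q)
      rw [sub_smul, one_smul] at h3
      rw [mul_one]
      exact h3
    | mul a b _ _ ha hb =>
      intro m hm q
      have h1 := hb _ (hmm _) (q * a)
      have h2 := zsmul_mem (ha _ (hmm _) q) (mm (θ b))
      have h3 := smul_mem_of_cast J hp (n := mm (θ b) * mm (θ a) - m) (by
        rw [Int.cast_sub, Int.cast_mul, hmm, hmm, hm, map_mul, mul_comm, sub_self]) (oo q)
      have := J.add_mem (J.add_mem h1 h2) h3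
      rw [smul_sub, sub_smul, mul_smul, mul_assoc] at this
      convert this using 1
      abel
    | inv a _ ha =>
      intro m hm q
      have h2 := zsmul_mem (ha _ (hmm _) (q * a⁻¹)) (-m)
      have h3 := smul_mem_of_cast J hp (n := 1 - m * mm (θ a)) (by
        rw [Int.cast_sub, Int.cast_mul, hmm, hm, ← map_mul, inv_mul_cancel, map_one, Int.cast_one,
          sub_self]) (oo (q * a⁻¹))
      have := J.add_mem h2 h3
      rw [inv_mul_cancel_right, smul_sub, sub_smul, mul_smul, one_smul, neg_smul, neg_smul] at this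
      convert this using 1
      abel
  · intro χ hχ hs f hf
    set Φ := E (fun q => θ q * (χ q : ZMod p)) with hΦ
    have key : ∀ g : ZG Q, Φ (g * f) = 0 := by
      induction hf using Submodule.span_induction with
      | mem y hy =>
        obtain ⟨o, rfl⟩ := hy
        intro g
        induction g using MonoidAlgebra.induction_linear with
        | zero => rw [zero_mul, map_zero]
        | add f g hf hg => rw [add_mul, map_add, hf, hg, add_zero]
        | single q n =>
          have : (MonoidAlgebra.single q n : ZG Q) = n • oo q := by simp [oo_apply]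
          rw [this, smul_mul_assoc, map_zsmul]
          suffices h : Φ (oo q * gJ o) = 0 by rw [h, smul_zero]
          rcases o with _ | _ | a
          · show Φ (oo q * (p : ZG Q)) = 0
            rw [← (Nat.cast_commute p (oo q)).eq, ← nsmul_eq_mul, map_nsmul, nsmul_eq_mul,
              ZMod.natCast_self, zero_mul]
          · show Φ (oo q * ∑ j ∈ Finset.range l, oo (c ^ j)) = 0
            rw [Finset.mul_sum, map_sum]
            have : ∀ j ∈ Finset.range l, Φ (oo q * oo (c ^ j)) = θ q * (χ (q * c ^ j) : ZMod p) := by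
              intro j _
              rw [← map_mul, hΦ, E_oo, map_mul, map_pow, hc, one_pow, mul_one]
            rw [Finset.sum_congr rfl this, ← Finset.mul_sum, ← Int.cast_sum, hs, Int.cast_zero,
              mul_zero]
          · show Φ (oo q * (oo (hg a) - mm (θ (hg a)) • 1)) = 0
            rw [mul_sub, ← map_mul, mul_smul_comm, mul_one, map_sub, map_zsmul, hΦ, E_oo, E_oo,
              hχ q _ (Subgroup.subset_closure ⟨a, rfl⟩), map_mul, zsmul_eq_mul, hmm]
            ring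
      | zero => intro g; rw [mul_zero, map_zero]
      | add a b _ _ ha hb => intro g; rw [mul_add, map_add, ha, hb, add_zero]
      | smul a b _ hb => intro g; rw [smul_eq_mul, ← mul_assoc]; exact hb _
    simpa using key 1

theorem exists_notMem_zmod {p : ℕ} [NeZero p] (B : Finset (ZMod p)) (h : B.card < p) :
    ∃ x, x ∉ B := by
  by_contra hc
  push Not at hc
  rw [Finset.eq_univ_of_forall hc, Finset.card_univ, ZMod.card] at h
  exact lt_irrefl _ h

/-- The additive maps killing a left ideal. -/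
def killers (p : ℕ) (J : Submodule (ZG Q) (ZG Q)) : Submodule (ZMod p) (ZG Q →+ ZMod p) where
  carrier := {φ | ∀ f ∈ J, φ f = 0}
  add_mem' := fun {a b} ha hb f hf => by
    rw [AddMonoidHom.add_apply, ha f hf, hb f hf, add_zero]
  zero_mem' := fun _ _ => rfl
  smul_mem' := fun c a ha f hf => by
    rw [AddMonoidHom.smul_apply, ha f hf, smul_zero]

/-- Evaluation. -/
noncomputable def evalAt (p : ℕ) (J : Submodule (ZG Q) (ZG Q)) (w : ZG Q) : killers p J →ₗ[ZMod p] ZMod p where
  toFun φ := φ.1 w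
  map_add' _ _ := rfl
  map_smul' _ _ := rfl

theorem exists_lam {p : ℕ} [Fact p.Prime] (J : Submodule (ZG Q) (ZG Q)) (W : Finset (ZG Q))
    (hW : ∀ w ∈ W, ∃ φ : ZG Q →+ ZMod p, (∀ f ∈ J, φ f = 0) ∧ φ w ≠ 0) (hc : W.card < p) :
    ∃ φ : ZG Q →+ ZMod p, (∀ f ∈ J, φ f = 0) ∧ ∀ w ∈ W, φ w ≠ 0 := by
  obtain ⟨φ, hφ⟩ := avoid (evalAt p J) W (fun w hw => by
    obtain ⟨φ, h1, h2⟩ := hW w hw
    exact ⟨⟨φ, h1⟩, h2⟩) (fun B hB => exists_notMem_zmod B (hB.trans_lt hc))
  exact ⟨φ.1, φ.2, hφ⟩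

theorem sum_ind {p : ℕ} [Fact p.Prime] (x a β : ZMod p) (hβ : β ≠ 0) :
    ∑ j ∈ Finset.range p, (if x + (j : ZMod p) * β = a then (1 : ℤ) else 0) = 1 := by
  have hp : NeZero p := ⟨(Fact.out : p.Prime).ne_zero⟩
  rw [Finset.sum_eq_single ((a - x) / β).val]
  · rw [if_pos]
    rw [ZMod.natCast_zmod_val, div_mul_cancel₀ _ hβ]
    ring
  · intro j hj hne
    rw [if_neg]
    intro h
    apply hne
    have : (j : ZMod p) = (a - x) / β := by
      rw [eq_div_iff hβ, ← h]
      ring
    rw [← this, ZMod.val_natCast, Nat.mod_eq_of_lt (Finset.mem_range.1 hj)]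
  · intro h
    exact (h (Finset.mem_range.2 (ZMod.val_lt _))).elim

end TopS

open TopS

theorem topStep (hl : LiftStmt) (ho : OntoStmt) : TopStepStmt := by
  intro r G Q _ _ _ S hTF δ i1 i2 h12 hδ c0 hc0 hc01 C hCn hCc k n hTop T
  classical
  set z := S.pr (S.x i2) with hz
  have hz1 : z ≠ 1 := by
    intro h
    rw [h, map_one] at hδ
    exact absurd (congrArg Multiplicative.toAdd hδ) (by simp)
  -- the derivation
  let D : Finset G := (T ×ˢ T).image (fun ss => ss.1⁻¹ * ss.2)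
  obtain ⟨α, M, hα2, hα1, hρD⟩ := exists_rho S h12 hz1 D
  set ρ := rho S α M with hρ
  have hρmul : ∀ a b, ρ (a * b) = ρ a + oo (S.pr a) * ρ b := rho_mul S α M
  let TQ : Finset Q := insert 1 (D.biUnion (fun σ => (ρ σ).coeff.support))
  obtain ⟨H', c, l, Y', hH'g, hH'f, hcC, hδc, hl0, hY', hcov, hχ⟩ := hTop TQ
  choose! χ hχ1 hχ2 hχ3 hχ4 using hχ
  set o := H'.normalCore.index with ho'
  have ho0 : o ≠ 0 := Subgroup.FiniteIndex.index_ne_zero
  have hzo : ∀ q, q⁻¹ * z ^ o * q ∈ H' := fun q =>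
    H'.normalCore_le (H'.normalCore_normal.conj_mem' _ (H'.normalCore.pow_index_mem z) q)
  -- the prime
  obtain ⟨p, hpB, hp⟩ := Nat.exists_infinite_primes
    (2 ^ o + l + (α i1).natAbs + (∑ σ ∈ D, nrm (ρ σ)).natAbs + T.card * T.card + T.card +
      H'.index + 3)
  have : Fact p.Prime := ⟨hp⟩
  have : NeZero p := ⟨hp.ne_zero⟩
  have hsmall : ∀ m : ℤ, m ≠ 0 → m.natAbs < p → ¬ (p : ℤ) ∣ m := fun m hm hlt hd =>
    absurd (Nat.le_of_dvd (Int.natAbs_pos.2 hm) (Int.natCast_dvd.1 hd)) (not_le.2 hlt)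
  have h2 : (2 : ZMod p) ≠ 0 := by
    intro h
    have : ((2 : ℤ) : ZMod p) = 0 := by exact_mod_cast h
    have h2o : 0 < 2 ^ o := by positivity
    exact hsmall 2 (by norm_num) (by simp; omega) ((ZMod.intCast_zmod_eq_zero_iff_dvd 2 p).1 this)
  let θ : Q →* ZMod p :=
    { toFun := fun q => (2 : ZMod p) ^ (Multiplicative.toAdd (δ q))
      map_one' := by simp
      map_mul' := fun a b => by rw [map_mul, toAdd_mul, zpow_add₀ h2] }
  have hθ : ∀ q, θ q = (2 : ZMod p) ^ (Multiplicative.toAdd (δ q)) := fun _ => rfl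
  have hθ0 : ∀ q, θ q ≠ 0 := fun q => zpow_ne_zero _ h2
  obtain ⟨gJ, hJp, hJν, hJh, hJχ⟩ := exists_J θ H' hH'g c (by rw [hθ, hδc]; simp) l
  set J := Submodule.span (ZG Q) (Set.range gJ) with hJ
  have hlift : ∀ x : ZMod p, ∃ m : ℤ, (m : ZMod p) = x := fun x => ZMod.intCast_surjective x
  choose mm hmm using hlift
  -- functionals
  have hΦ : ∀ s ∈ TQ, ∀ f ∈ J, E (fun q => θ q * (χ s q : ZMod p)) f = 0 := fun s hs =>
    hJχ (χ s) (hχ1 s hs) (hχ2 s hs)
  have hnot : ∀ f : ZG Q, f ≠ 0 → (∀ q ∈ f.coeff.support, q ∈ TQ) →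
      (∀ q, (f.coeff q).natAbs < p) → ∀ u : Q,
      ∃ φ : ZG Q →+ ZMod p, (∀ f ∈ J, φ f = 0) ∧ φ (oo u * f) ≠ 0 := by
    intro f hf hsup hb u
    obtain ⟨s, hs⟩ := Finsupp.support_nonempty_iff.2 (mt MonoidAlgebra.coeff_eq_zero.1 hf)
    refine ⟨(E (fun q => θ q * (χ s q : ZMod p))).comp (AddMonoidHom.mulLeft (oo u⁻¹)),
      fun g hg => hΦ s (hsup s hs) _ (J.smul_mem (oo u⁻¹) hg), ?_⟩
    show E (fun q => θ q * (χ s q : ZMod p)) (oo u⁻¹ * (oo u * f)) ≠ 0
    rw [← mul_assoc, oo_inv_mul, one_mul, E_coeff s (fun q hq hne => by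
      show θ q * (χ s q : ZMod p) = 0
      rw [hχ4 s (hsup s hs) q (hsup q hq) hne, Int.cast_zero, mul_zero])]
    rw [hχ3 s (hsup s hs), Int.cast_one, mul_one, zsmul_eq_mul]
    refine mul_ne_zero (fun h => ?_) (hθ0 s)
    exact hsmall _ (Finsupp.mem_support_iff.1 hs) (hb s)
      ((ZMod.intCast_zmod_eq_zero_iff_dvd _ p).1 h)
  -- the element t
  have h2o : 2 ≤ 2 ^ o := by
    calc 2 = 2 ^ 1 := by norm_num
      _ ≤ 2 ^ o := Nat.pow_le_pow_right (by norm_num) (Nat.one_le_iff_ne_zero.2 ho0)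
  obtain ⟨t, ht, ht1⟩ := ho r G Q S C hCn hCc c hcC l p o (2 ^ o) hp
    (fun h => absurd (Nat.le_of_dvd hl0 h) (by omega))
    (hsmall _ (by
      have : (2 : ℤ) ≤ 2 ^ o := by exact_mod_cast h2o
      omega) (by
      have e : ((2 : ℤ) ^ o - 1) = ((2 ^ o - 1 : ℕ) : ℤ) := by
        rw [Nat.cast_sub (by omega)]; simp
      rw [e, Int.natAbs_natCast]
      omega))
    i1 i2 α hα2 (hsmall _ hα1 (by omega)) J hJp hJν (fun q => by
      have := hJh _ (hzo q) (2 ^ o) (by
        rw [hθ, map_mul δ, map_mul δ, map_inv δ, map_pow δ, hδ]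
        simp) q
      rw [← mul_assoc, ← mul_assoc, mul_inv_cancel, one_mul] at this
      exact this)
  rw [← rho_ker S α M ht, ← hρ] at ht1
  obtain ⟨H, hHg, hHρ, hHJ, hHcov⟩ := exists_H S gJ ρ hρmul ht
    (fun a μ ha h => rho_span S α M ha ht h) ht1
  rw [← hJ] at hHρ hHJ
  choose A hA hA' using exists_a S ht
  have hAJ : ∀ (a : G) (μ ν : ZG Q), S.pr a = 1 → S.der a = μ • S.der t → μ - ν ∈ J →
      (A ν)⁻¹ * a ∈ H := by
    intro a μ ν ha ha' hμ
    refine hHJ _ hμ _ (by rw [map_mul, map_inv, hA, ha, inv_one, mul_one]) ?_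
    rw [S.der_mul_ker (by rw [map_inv, hA, inv_one]), S.der_inv_ker (hA ν), hA', ha', sub_smul]
    abel
  -- reduction of the support
  have hred : ∀ (Y : Set Q), (∀ q, ∃ y ∈ Y, y⁻¹ * q ∈ H') → ∀ μ : ZG Q,
      ∃ ν : ZG Q, (∀ q ∈ ν.coeff.support, q ∈ Y) ∧ μ - ν ∈ J := by
    intro Y hY μ
    induction μ using MonoidAlgebra.induction_linear with
    | zero => exact ⟨0, by simp, by simp⟩
    | add f g hf hg =>
      obtain ⟨f', h1, h2⟩ := hf
      obtain ⟨g', h3, h4⟩ := hg
      refine ⟨f' + g', fun q hq => ?_, ?_⟩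
      · rw [MonoidAlgebra.coeff_add] at hq
        rcases Finset.mem_union.1 (Finsupp.support_add hq) with h | h
        · exact h1 q h
        · exact h3 q h
      · have := J.add_mem h2 h4
        convert this using 1
        abel
    | single q m =>
      obtain ⟨y, hy, hyq⟩ := hY q
      refine ⟨MonoidAlgebra.single y (m * mm (θ (y⁻¹ * q))), fun q' hq' => ?_, ?_⟩
      · rw [MonoidAlgebra.coeff_single] at hq'
        rw [Finset.mem_singleton.1 (Finsupp.support_single_subset hq')]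
        exact hy
      · have h1 := zsmul_mem (hJh _ hyq _ (hmm _) y) m
        rw [mul_inv_cancel_left, smul_sub, smul_smul] at h1
        have e1 : (MonoidAlgebra.single q m : ZG Q) = m • oo q := by simp [oo_apply]
        have e2 : (MonoidAlgebra.single y (m * mm (θ (y⁻¹ * q))) : ZG Q) =
            (m * mm (θ (y⁻¹ * q))) • oo y := by simp [oo_apply]
        rw [e1, e2]
        exact h1
  -- representatives
  have : Fintype (Q ⧸ H') := Fintype.ofFinite _
  let R : Finset Q := Finset.univ.image (fun ω : Q ⧸ H' => ω.out)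
  have hR : ∀ q, ∃ y ∈ R, y⁻¹ * q ∈ H' := fun q =>
    ⟨(QuotientGroup.mk q : Q ⧸ H').out, Finset.mem_image_of_mem _ (Finset.mem_univ _),
      QuotientGroup.eq.1 (Quotient.out_eq _)⟩
  have hRc : R.card ≤ H'.index := by
    refine Finset.card_image_le.trans ?_
    rw [Finset.card_univ, Subgroup.index, Nat.card_eq_fintype_card]
  have hfin : H.FiniteIndex := by
    have : Finite (G ⧸ H) := by
      refine Finite.of_surjective (fun v : R → ZMod p =>
        (QuotientGroup.mk (A (∑ y : R, ((v y).val : ℤ) • oo (y : Q))) : G ⧸ H)) fun ω => ?_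
      obtain ⟨g, rfl⟩ := QuotientGroup.mk_surjective ω
      obtain ⟨a, μ, ha, ha', hg⟩ := hHcov g
      obtain ⟨ν, hν, hν'⟩ := hred (R : Set Q) (fun q => by
        obtain ⟨y, h1, h2⟩ := hR q
        exact ⟨y, h1, h2⟩) μ
      refine ⟨fun y => ((ν.coeff y : ℤ) : ZMod p), QuotientGroup.eq.2 ?_⟩
      have e : ν = ∑ y : R, ν.coeff y • oo (y : Q) := by
        rw [Finset.sum_coe_sort R (fun y => ν.coeff y • oo y)]
        conv_lhs => rw [← MonoidAlgebra.sum_coeff_single ν]
        rw [Finsupp.sum_of_support_subset _ (s := R) (fun q hq => hν q hq) _ (by simp)]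
        exact Finset.sum_congr rfl fun q _ => by simp [oo_apply]
      have hm : μ - ∑ y : R, ((((ν.coeff y : ℤ) : ZMod p).val : ℤ)) • oo (y : Q) ∈ J := by
        have h3 : ν - ∑ y : R, ((((ν.coeff y : ℤ) : ZMod p).val : ℤ)) • oo (y : Q) ∈ J := by
          have h4 : ν - ∑ y : R, ((((ν.coeff y : ℤ) : ZMod p).val : ℤ)) • oo (y : Q) =
              ∑ y : R, (ν.coeff y - (((ν.coeff y : ℤ) : ZMod p).val : ℤ)) • oo (y : Q) := by
            simp only [sub_smul, Finset.sum_sub_distrib]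
            rw [← e]
          rw [h4]
          exact J.sum_mem fun y _ => smul_mem_of_cast J hJp (by simp) _
        have := J.add_mem hν' h3
        convert this using 1
        abel
      have := H.mul_mem (hAJ a μ _ ha ha' hm) hg
      rw [mul_assoc, mul_inv_cancel_left] at this
      exact this
    exact Subgroup.finiteIndex_of_finite_quotient
  -- the linear form
  let W : Finset (ZG Q) := (((T ×ˢ T).filter (fun ss => ss.1 ≠ ss.2)).image
    (fun ss => oo (S.pr ss.1) * ρ (ss.1⁻¹ * ss.2))) ∪ R.image oo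
  obtain ⟨lam, hlamJ, hlamW⟩ := exists_lam (p := p) J W (by
    intro w hw
    rcases Finset.mem_union.1 hw with hw | hw
    · obtain ⟨ss, hss, rfl⟩ := Finset.mem_image.1 hw
      obtain ⟨h1, h2⟩ := Finset.mem_filter.1 hss
      have hD : ss.1⁻¹ * ss.2 ∈ D := Finset.mem_image_of_mem _ h1
      refine hnot _ (hρD _ hD (fun h => h2 (inv_mul_eq_one.1 h))) (fun q hq =>
        Finset.mem_insert_of_mem (Finset.mem_biUnion.2 ⟨_, hD, hq⟩)) (fun q => ?_) _
      have hn : ∀ f : ZG Q, 0 ≤ nrm f := fun f => Finset.sum_nonneg fun _ _ => abs_nonneg _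
      have h3 : |(ρ (ss.1⁻¹ * ss.2)).coeff q| ≤ nrm (ρ (ss.1⁻¹ * ss.2)) := by
        by_cases hq : q ∈ (ρ (ss.1⁻¹ * ss.2)).coeff.support
        · exact Finset.single_le_sum (f := fun q => |(ρ (ss.1⁻¹ * ss.2)).coeff q|)
            (fun _ _ => abs_nonneg _) hq
        · rw [Finsupp.notMem_support_iff.1 hq, abs_zero]
          exact hn _
      have h4 : nrm (ρ (ss.1⁻¹ * ss.2)) ≤ ∑ σ ∈ D, nrm (ρ σ) :=
        Finset.single_le_sum (f := fun σ => nrm (ρ σ)) (fun _ _ => hn _) hD
      have h5 := h3.trans h4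
      rw [abs_le] at h5
      omega
    · obtain ⟨y, -, rfl⟩ := Finset.mem_image.1 hw
      have := hnot 1 one_ne_zero (fun q hq => by
        rw [MonoidAlgebra.one_def, MonoidAlgebra.coeff_single] at hq
        rw [Finset.mem_singleton.1 (Finsupp.support_single_subset hq)]
        exact Finset.mem_insert_self _ _) (fun q => by
        rw [MonoidAlgebra.one_def, MonoidAlgebra.coeff_single, Finsupp.single_apply]
        split_ifs <;> simp <;> omega) y
      rwa [mul_one] at this) (by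
    refine (Finset.card_union_le _ _).trans_lt ?_
    have h1 : (((T ×ˢ T).filter (fun ss => ss.1 ≠ ss.2)).image
        (fun ss => oo (S.pr ss.1) * ρ (ss.1⁻¹ * ss.2))).card ≤ T.card * T.card :=
      Finset.card_image_le.trans ((Finset.card_filter_le _ _).trans (Finset.card_product _ _).le)
    have h2 : (R.image oo).card ≤ H'.index := Finset.card_image_le.trans hRc
    omega)
  have hlam0 : ∀ q, lam (oo q) ≠ 0 := by
    intro q
    obtain ⟨y, hy, hyq⟩ := hR q
    have h1 := hlamJ _ (hJh _ hyq _ (hmm _) y)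
    rw [mul_inv_cancel_left, map_sub, map_zsmul, sub_eq_zero, zsmul_eq_mul, hmm] at h1
    rw [h1]
    exact mul_ne_zero (hθ0 _) (hlamW _ (Finset.mem_union_right _ (Finset.mem_image_of_mem _ hy)))
  have hLH : ∀ g, ∀ h ∈ H, lam (ρ (g * h)) = lam (ρ g) := fun g h hh => by
    have h1 := hlamJ _ (J.smul_mem (oo (S.pr g)) (hHρ h hh))
    rw [smul_eq_mul] at h1
    rw [hρmul, map_add, h1, add_zero]
  have hLt : ∀ g (j : ℕ), lam (ρ (g * t ^ j)) = lam (ρ g) + (j : ZMod p) * lam (oo (S.pr g)) := by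
    intro g j
    induction j with
    | zero => simp
    | succ j ih =>
      have h1 := hlamJ _ (J.smul_mem (oo (S.pr g)) ht1)
      rw [smul_eq_mul, mul_sub, mul_one, map_sub, sub_eq_zero] at h1
      rw [pow_succ, ← mul_assoc, hρmul, map_add, ih, map_mul S.pr, map_pow S.pr, ht, one_pow,
        mul_one, h1]
      push_cast
      ring
  obtain ⟨a1, ha1⟩ : ∃ a1 : ZMod p, a1 ∉ T.image (fun s => lam (ρ s)) := by
    apply exists_notMem_zmod
    have := Finset.card_image_le (s := T) (f := fun s => lam (ρ s))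
    omega
  refine ⟨H, t, p, spanT S Y' t, genLe_mono (by simp; omega) hHg, hfin, ht, by simp [ht], hp.pos,
    redR_mono _ (by omega) _ _ (hl r G Q S hTF δ z hδ c0 hc0 hc01 t ht k n Y' hY'), fun g => ?_,
    fun s hs => ?_⟩
  · obtain ⟨a, μ, ha, ha', hg⟩ := hHcov g
    obtain ⟨ν, hν, hν'⟩ := hred Y' hcov μ
    refine ⟨A ν, ⟨hA ν, ν, hν, hA' ν⟩, ?_⟩
    have := H.mul_mem (hAJ a μ _ ha ha' hν') hg
    rwa [mul_assoc, mul_inv_cancel_left] at this
  · refine ⟨fun g => (if lam (ρ g) = lam (ρ s) then 1 else 0) - (if lam (ρ g) = a1 then 1 else 0),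
      fun g h hh => by simp only [hLH g h hh], fun g => ?_, ?_, fun s' hs' hne => ?_⟩
    · simp only [hLt, Finset.sum_sub_distrib]
      rw [sum_ind _ _ _ (hlam0 _), sum_ind _ _ _ (hlam0 _), sub_self]
    · have : lam (ρ s) ≠ a1 := fun h => ha1 (Finset.mem_image.2 ⟨s, hs, h⟩)
      simp [this]
    · have h1 : lam (ρ s') ≠ a1 := fun h => ha1 (Finset.mem_image.2 ⟨s', hs', h⟩)
      have h2 : lam (ρ s') ≠ lam (ρ s) := by
        intro h
        have h3 := hρmul s (s⁻¹ * s')
        rw [mul_inv_cancel_left] at h3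
        rw [h3, map_add, add_eq_left] at h
        exact hlamW _ (Finset.mem_union_left _ (Finset.mem_image.2 ⟨(s, s'),
          Finset.mem_filter.2 ⟨Finset.mem_product.2 ⟨hs, hs'⟩, hne.symm⟩, rfl⟩)) h
      simp [h1, h2]

end Pool.Agent.H259Z.Rich
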