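import Pool.Agent.H259Z.Rich.RedDefs

/-! Auxiliary lemmas for the top step. -/

set_option autoImplicit false
set_option linter.unusedSectionVars false

namespace Pool.Agent.H259Z.Rich

namespace TopS

/-- Finitely many nonzero functionals have a common non-root when the ring is big enough. -/
theorem avoid {R P ι : Type} [CommRing R] [IsDomain R] [AddCommGroup P] [Module R P]
    (f : ι → P →ₗ[R] R) (s : Finset ι) :
    (∀ i ∈ s, ∃ x, f i x ≠ 0) → (∀ B : Finset R, B.card ≤ s.card → ∃ x, x ∉ B) →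
      ∃ x, ∀ i ∈ s, f i x ≠ 0 := by
  classical
  induction s using Finset.induction_on with
  | empty => intro _ _; exact ⟨0, by simp⟩
  | insert i0 s hi0 ih =>
    intro hf hB
    obtain ⟨a, ha⟩ := ih (fun i hi => hf i (Finset.mem_insert_of_mem hi))
      (fun B hb => hB B (hb.trans (Finset.card_le_card (Finset.subset_insert _ _))))
    obtain ⟨b, hb⟩ := hf i0 (Finset.mem_insert_self _ _)
    let rt : ι → R := fun i => if h : ∃ x, f i a + x * f i b = 0 then h.choose else 0
    obtain ⟨x, hx⟩ := hB ((insert i0 s).image rt) Finset.card_image_le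
    refine ⟨a + x • b, fun i hi h0 => hx ?_⟩
    rw [map_add, map_smul, smul_eq_mul] at h0
    have hex : ∃ x, f i a + x * f i b = 0 := ⟨x, h0⟩
    have h1 : f i a + rt i * f i b = 0 := by
      simp only [rt, dif_pos hex]
      exact hex.choose_spec
    have h2 : (x - rt i) * f i b = 0 := by linear_combination h0 - h1
    rcases mul_eq_zero.1 h2 with h3 | h3
    · exact Finset.mem_image.2 ⟨i, hi, (sub_eq_zero.1 h3).symm⟩
    · exfalso
      rw [h3, mul_zero, add_zero] at h0
      rcases Finset.mem_insert.1 hi with rfl | hi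
      · exact hb h3
      · exact ha i hi h0

theorem genLe_of_card {G ι : Type} [Group G] [Fintype ι] (f : ι → G) {k : ℕ}
    (hk : Fintype.card ι ≤ k) : GenLe k (Subgroup.closure (Set.range f)) := by
  classical
  obtain ⟨e⟩ : Nonempty (ι ↪ Fin k) :=
    Function.Embedding.nonempty_of_card_le (by simpa using hk)
  refine ⟨fun j => if h : ∃ i, e i = j then f h.choose else 1, le_antisymm ?_ ?_⟩
  · rw [Subgroup.closure_le]
    rintro _ ⟨j, rfl⟩
    by_cases h : ∃ i, e i = j
    · simp only [dif_pos h]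
      exact Subgroup.subset_closure ⟨_, rfl⟩
    · simp only [dif_neg h]
      exact Subgroup.one_mem _
  · rw [Subgroup.closure_le]
    rintro _ ⟨i, rfl⟩
    refine Subgroup.subset_closure ⟨e i, ?_⟩
    have h : ∃ i', e i' = e i := ⟨i, rfl⟩
    simp only [dif_pos h]
    rw [e.injective h.choose_spec]

theorem genLe_mono {G : Type} [Group G] {k k' : ℕ} (hk : k ≤ k') {H : Subgroup G}
    (h : GenLe k H) : GenLe k' H := by
  obtain ⟨f, rfl⟩ := h
  exact genLe_of_card f (by simpa using hk)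

theorem redR_mono {Q : Type} [Group Q] (δ : Q →* Multiplicative ℤ) {k k' : ℕ} (hk : k ≤ k') :
    ∀ (n : ℕ) (Y : Set Q), RedR δ k n Y → RedR δ k' n Y
  | 0, _, h => h
  | n + 1, Y, h => by
    intro T hT Λ hΛ
    obtain ⟨H, U, h1, h2, h3, h4, h5, Y', h6, h7, h8⟩ := h T hT Λ hΛ
    exact ⟨H, U, genLe_mono hk h1, genLe_mono hk h2, h3, h4, h5, Y', h6,
      redR_mono δ hk n Y' h7, h8⟩

variable {r : ℕ} {G Q : Type} [Group G] [Group Q] (S : MS r G Q)

/-- The scalar derivation. -/
noncomputable def rho (α : Fin r → ℤ) (M : ℤ) (g : G) : ZG Q :=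
  (∑ i, α i • S.der g i) + M • (oo (S.pr g) - 1)

theorem rho_mul (α : Fin r → ℤ) (M : ℤ) (a b : G) :
    rho S α M (a * b) = rho S α M a + oo (S.pr a) * rho S α M b := by
  unfold rho
  rw [S.der_mul, map_mul, map_mul, mul_add, Finset.mul_sum]
  simp only [Pi.add_apply, Pi.smul_apply, smul_eq_mul, smul_add, Finset.sum_add_distrib,
    mul_smul_comm]
  have : oo (S.pr a) * oo (S.pr b) - 1 = (oo (S.pr a) - 1) + oo (S.pr a) * (oo (S.pr b) - 1) := by
    noncomm_ring
  rw [this, smul_add]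
  abel

theorem rho_ker (α : Fin r → ℤ) (M : ℤ) {a : G} (ha : S.pr a = 1) :
    rho S α M a = ∑ i, α i • S.der a i := by
  unfold rho
  rw [ha, map_one, sub_self, smul_zero, add_zero]

theorem rho_span (α : Fin r → ℤ) (M : ℤ) {a t : G} (ha : S.pr a = 1) (ht : S.pr t = 1)
    {μ : ZG Q} (h : S.der a = μ • S.der t) : rho S α M a = μ * rho S α M t := by
  rw [rho_ker S α M ha, rho_ker S α M ht, h, Finset.mul_sum]
  simp only [Pi.smul_apply, smul_eq_mul, mul_smul_comm]

theorem exists_rho [UniqueProds Q] {i1 i2 : Fin r} (h12 : i1 ≠ i2) (hz : S.pr (S.x i2) ≠ 1)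
    (D : Finset G) : ∃ (α : Fin r → ℤ) (M : ℤ), α i2 = 0 ∧ α i1 ≠ 0 ∧
      ∀ σ ∈ D, σ ≠ 1 → rho S α M σ ≠ 0 := by
  classical
  let u : G → Fin r → ZG Q := fun g i => if i = i2 then oo (S.pr g) - 1 else S.der g i
  have hu : ∀ σ : G, σ ≠ 1 → ∃ i q, (u σ i).coeff q ≠ 0 := by
    intro σ hσ
    by_contra hc
    push Not at hc
    have h0 : ∀ i, u σ i = 0 := fun i => by
      apply MonoidAlgebra.coeff_eq_zero.1
      ext q
      exact hc i q
    have h1 : oo (S.pr σ) - 1 = 0 := by simpa [u] using h0 i2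
    have h2 : ∀ i, i ≠ i2 → S.der σ i = 0 := fun i hi => by simpa [u, hi] using h0 i
    have h3 := S.eps_der σ
    rw [h1, S.eps_apply, Finset.sum_eq_single i2 (fun i _ hi => by rw [h2 i hi, zero_mul])
      (fun h => (h (Finset.mem_univ _)).elim)] at h3
    have h4 := (mul_eq_zero.1 h3).resolve_right (oo_sub_one_ne hz)
    apply hσ
    apply S.inj
    funext i
    by_cases hi : i = i2
    · rw [hi]; exact h4
    · exact h2 i hi
  have : Nonempty (Fin r) := ⟨i1⟩
  choose! iσ qσ hσ using hu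
  let f : Option G → (Fin r → ℤ) →ₗ[ℤ] ℤ := fun o =>
    match o with
    | none => LinearMap.proj i1
    | some σ => Fintype.linearCombination ℤ (fun i => (u σ i).coeff (qσ σ))
  obtain ⟨β, hβ⟩ := avoid f (insert none ((D.filter (· ≠ 1)).image some)) (by
    intro o ho
    rcases Finset.mem_insert.1 ho with rfl | ho
    · exact ⟨Pi.single i1 1, by simp [f]⟩
    · obtain ⟨σ, hσ', rfl⟩ := Finset.mem_image.1 ho
      refine ⟨Pi.single (iσ σ) 1, ?_⟩
      simp only [f, Fintype.linearCombination_apply_single, one_smul]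
      exact hσ σ (Finset.mem_filter.1 hσ').2) (fun B _ => Infinite.exists_notMem_finset B)
  refine ⟨Function.update β i2 0, β i2, by simp, ?_, fun σ hD h1 h0 => ?_⟩
  · rw [Function.update_of_ne h12]
    exact hβ none (Finset.mem_insert_self _ _)
  · apply hβ (some σ) (Finset.mem_insert_of_mem
      (Finset.mem_image_of_mem _ (Finset.mem_filter.2 ⟨hD, h1⟩)))
    have e : rho S (Function.update β i2 0) (β i2) σ = ∑ i, β i • u σ i := by
      unfold rho
      rw [← Finset.add_sum_erase _ _ (Finset.mem_univ i2),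
        ← Finset.add_sum_erase _ (fun i => β i • u σ i) (Finset.mem_univ i2)]
      have : ∑ i ∈ Finset.univ.erase i2, Function.update β i2 0 i • S.der σ i =
          ∑ i ∈ Finset.univ.erase i2, β i • u σ i := Finset.sum_congr rfl fun i hi => by
        have hi' := Finset.ne_of_mem_erase hi
        simp [u, hi']
      rw [this]
      simp [u, add_comm]
    rw [e] at h0
    have h5 := congrArg (E (fun q => if q = qσ σ then (1 : ℤ) else 0)) h0
    rw [map_sum, map_zero] at h5
    simp only [f, Fintype.linearCombination_apply]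
    rw [← h5]
    refine Finset.sum_congr rfl fun i _ => ?_
    rw [map_zsmul, E_coeff (qσ σ) (fun q _ hq => if_neg hq), if_pos rfl]
    simp

/-- Every multiple of `der t` is the derivative of an element of the kernel. -/
theorem exists_a {t : G} (ht : S.pr t = 1) (μ : ZG Q) :
    ∃ a : G, S.pr a = 1 ∧ S.der a = μ • S.der t := by
  induction μ using MonoidAlgebra.induction_linear with
  | zero => exact ⟨1, map_one _, by rw [S.der_one, zero_smul]⟩
  | add f g hf hg =>
    obtain ⟨a, ha, ha'⟩ := hf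
    obtain ⟨b, hb, hb'⟩ := hg
    exact ⟨a * b, by rw [map_mul, ha, hb, mul_one], by rw [S.der_mul_ker ha, ha', hb', add_smul]⟩
  | single q n =>
    obtain ⟨g, rfl⟩ := S.surj q
    have h1 : S.pr (g * t * g⁻¹) = 1 := by simp [ht]
    refine ⟨(g * t * g⁻¹) ^ n, by rw [map_zpow, h1, one_zpow], ?_⟩
    have : (MonoidAlgebra.single (S.pr g) n : ZG Q) = n • oo (S.pr g) := by simp [oo_apply]
    rw [S.der_zpow_ker h1, S.der_conj g ht, this, smul_assoc]

/-- The subgroup attached to a finitely generated left ideal. -/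
theorem exists_H {ι : Type} [Fintype ι] (gJ : ι → ZG Q) (ρ : G → ZG Q)
    (hρ : ∀ a b, ρ (a * b) = ρ a + oo (S.pr a) * ρ b) {t : G} (ht : S.pr t = 1)
    (hρt : ∀ (a : G) (μ : ZG Q), S.pr a = 1 → S.der a = μ • S.der t → ρ a = μ * ρ t)
    (h1 : ρ t - 1 ∈ Submodule.span (ZG Q) (Set.range gJ)) :
    ∃ H : Subgroup G, GenLe (r + Fintype.card ι) H ∧
      (∀ h ∈ H, ρ h ∈ Submodule.span (ZG Q) (Set.range gJ)) ∧
      (∀ μ ∈ Submodule.span (ZG Q) (Set.range gJ), ∀ a, S.pr a = 1 → S.der a = μ • S.der t →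
        a ∈ H) ∧
      (∀ g, ∃ (a : G) (μ : ZG Q), S.pr a = 1 ∧ S.der a = μ • S.der t ∧ a⁻¹ * g ∈ H) := by
  classical
  set J := Submodule.span (ZG Q) (Set.range gJ) with hJ
  choose A hA hA' using exists_a S ht
  let gH : Fin r ⊕ ι → G := fun o =>
    match o with
    | Sum.inl i => A (-ρ (S.x i)) * S.x i
    | Sum.inr b => A (gJ b)
  have hρ1 : ρ 1 = 0 := by
    have := hρ 1 1
    rw [mul_one, map_one, map_one, one_mul] at this
    exact left_eq_add.1 this
  set H := Subgroup.closure (Set.range gH) with hH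
  have hx : ∀ i, A (-ρ (S.x i)) * S.x i ∈ H := fun i =>
    Subgroup.subset_closure ⟨Sum.inl i, rfl⟩
  have hsurj : ∀ g : G, ∃ h ∈ H, S.pr h = S.pr g := by
    intro g
    induction g using S.induction with
    | h1 => exact ⟨1, H.one_mem, rfl⟩
    | hx i => exact ⟨_, hx i, by rw [map_mul, hA, one_mul]⟩
    | hm a b ha hb =>
      obtain ⟨h, hh, e⟩ := ha
      obtain ⟨h', hh', e'⟩ := hb
      exact ⟨h * h', H.mul_mem hh hh', by rw [map_mul, map_mul, e, e']⟩
    | hi a ha =>
      obtain ⟨h, hh, e⟩ := ha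
      exact ⟨h⁻¹, H.inv_mem hh, by rw [map_inv, map_inv, e]⟩
  have hA0 : A 0 = 1 := S.der_inj (by rw [hA', zero_smul, S.der_one])
  have hAadd : ∀ μ ν, A (μ + ν) = A μ * A ν := fun μ ν =>
    S.der_inj (by rw [S.der_mul_ker (hA μ), hA', hA', hA', add_smul])
  have hAz : ∀ (n : ℤ) μ, A (n • μ) = A μ ^ n := fun n μ =>
    S.der_inj (by rw [S.der_zpow_ker (hA μ), hA', hA', smul_assoc])
  have hAc : ∀ (g : G) μ, A (oo (S.pr g) * μ) = g * A μ * g⁻¹ := fun g μ =>
    S.der_inj (by rw [S.der_conj g (hA μ), hA', hA', smul_smul])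
  refine ⟨H, genLe_of_card gH (by simp), ?_, ?_, ?_⟩
  · intro h hh
    induction hh using Subgroup.closure_induction with
    | mem y hy =>
      obtain ⟨o, rfl⟩ := hy
      rcases o with i | b
      · show ρ (A (-ρ (S.x i)) * S.x i) ∈ J
        rw [hρ, hA, map_one, one_mul, hρt _ _ (hA _) (hA' _)]
        have : -ρ (S.x i) * ρ t + ρ (S.x i) = (-ρ (S.x i)) • (ρ t - 1) := by
          rw [smul_eq_mul]; noncomm_ring
        rw [this]
        exact J.smul_mem _ h1
      · show ρ (A (gJ b)) ∈ J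
        rw [hρt _ _ (hA _) (hA' _)]
        have : gJ b * ρ t = gJ b • (ρ t - 1) + gJ b := by
          rw [smul_eq_mul]; noncomm_ring
        rw [this]
        exact J.add_mem (J.smul_mem _ h1) (Submodule.subset_span ⟨b, rfl⟩)
    | one => rw [hρ1]; exact J.zero_mem
    | mul a b _ _ ha hb => rw [hρ]; exact J.add_mem ha (J.smul_mem _ hb)
    | inv a _ ha =>
      have := hρ a⁻¹ a
      rw [inv_mul_cancel, hρ1] at this
      rw [eq_neg_of_add_eq_zero_left this.symm]
      exact J.neg_mem (J.smul_mem _ ha)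
  · intro μ hμ a ha ha'
    have : a = A μ := S.der_inj (by rw [ha', hA'])
    subst this
    clear ha ha'
    induction hμ using Submodule.span_induction with
    | mem y hy =>
      obtain ⟨b, rfl⟩ := hy
      exact Subgroup.subset_closure ⟨Sum.inr b, rfl⟩
    | zero => rw [hA0]; exact H.one_mem
    | add μ ν _ _ h h' => rw [hAadd]; exact H.mul_mem h h'
    | smul f μ _ h =>
      induction f using MonoidAlgebra.induction_linear with
      | zero => rw [zero_smul, hA0]; exact H.one_mem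
      | add f g hf hg => rw [add_smul, hAadd]; exact H.mul_mem hf hg
      | single q n =>
        obtain ⟨g, rfl⟩ := S.surj q
        obtain ⟨g', hg', e⟩ := hsurj g
        have : (MonoidAlgebra.single (S.pr g) n : ZG Q) = n • oo (S.pr g') := by
          simp [oo_apply, e]
        rw [this, smul_assoc, hAz, smul_eq_mul, hAc]
        exact H.zpow_mem (H.mul_mem (H.mul_mem hg' h) (H.inv_mem hg')) n
  · have key : ∀ g, ∃ μ : ZG Q, (A μ)⁻¹ * g ∈ H := by
      intro g
      induction g using S.induction with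
      | h1 => exact ⟨0, by rw [hA0, inv_one, mul_one]; exact H.one_mem⟩
      | hx i =>
        refine ⟨(-1 : ℤ) • (-ρ (S.x i)), ?_⟩
        rw [hAz, zpow_neg_one, inv_inv]
        exact hx i
      | hm a b ha hb =>
        obtain ⟨μ, h⟩ := ha
        obtain ⟨ν, h'⟩ := hb
        refine ⟨μ + oo (S.pr ((A μ)⁻¹ * a)) * ν, ?_⟩
        rw [hAadd, hAc]
        have : (A μ * ((A μ)⁻¹ * a * A ν * ((A μ)⁻¹ * a)⁻¹))⁻¹ * (a * b) =
            ((A μ)⁻¹ * a) * ((A ν)⁻¹ * b) := by group
        rw [this]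
        exact H.mul_mem h h'
      | hi a ha =>
        obtain ⟨μ, h⟩ := ha
        refine ⟨oo (S.pr ((A μ)⁻¹ * a)⁻¹) * ((-1 : ℤ) • μ), ?_⟩
        rw [hAc, hAz, zpow_neg_one]
        have : (((A μ)⁻¹ * a)⁻¹ * (A μ)⁻¹ * ((A μ)⁻¹ * a)⁻¹⁻¹)⁻¹ * a⁻¹ = ((A μ)⁻¹ * a)⁻¹ := by
          group
        rw [this]
        exact H.inv_mem h
    intro g
    obtain ⟨μ, h⟩ := key g
    exact ⟨A μ, μ, hA μ, hA' μ, h⟩

end TopS

end Pool.Agent.H259Z.Rich
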